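import Mathlib
import Pool.Graph.R_seed8.Results.MP_5fcb94_co.YoungPivots

/-!
# Young graphs are periodic in the base

For `g ≥ k²` the graph `H(g,k)` depends only on `g` modulo `k² - 1`.
-/

set_option autoImplicit false

namespace Pool.Agent.KS6_9.YG.Per

open Relation
open Pool.Agent.Results.MP_5fcb94_co.YoungPivots

theorem snd_nonneg {k : ℕ} (v : Node k) : 0 ≤ v.snd := by
  cases v with
  | start => exact le_rfl
  | ord a b => exact Int.natCast_nonneg _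

theorem fst_nonneg {k : ℕ} (v : Node k) : 0 ≤ v.fst := by
  cases v with
  | start => exact le_rfl
  | ord a b => exact Int.natCast_nonneg _

theorem snd_lt {k : ℕ} (hk : 0 < k) (v : Node k) : v.snd < k := by
  cases v with
  | start => exact Int.natCast_pos.2 hk
  | ord a b => exact Int.ofNat_lt.2 b.2

theorem fst_lt {k : ℕ} (hk : 0 < k) (v : Node k) : v.fst < k := by
  cases v with
  | start => exact Int.natCast_pos.2 hk
  | ord a b => exact Int.ofNat_lt.2 a.2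

/-- the labelled edges without congruences -/
theorem lab_iff {g k : ℕ} (hg : 0 < g) (hk : 0 < k) (u v : Node k) (b a : ℤ) :
    LabelledEdge g k u v b a ↔ (0 ≤ a ∧ a < g) ∧ (0 ≤ b ∧ b < g) ∧ (u = .start → 1 ≤ a ∧ 1 ≤ b) ∧
      v ≠ .start ∧ k * a + u.snd - b = g * v.snd ∧ a + u.fst * g - k * b = v.fst := by
  have hg' : (g : ℤ) ≠ 0 := by exact_mod_cast hg.ne'
  constructor
  · rintro ⟨h1, h2, h3, h4, h5, h6, h7, h8⟩
    refine ⟨h1, h2, h5, h6, ?_, h7.symm⟩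
    have h9 : (g : ℤ) ∣ k * a + u.snd - b := Int.ModEq.dvd h3.symm
    rw [h8, Int.mul_ediv_cancel' h9]
  · rintro ⟨h1, h2, h5, h6, h8, h7⟩
    refine ⟨h1, h2, ?_, ?_, h5, h6, h7.symm, ?_⟩
    · refine (Int.modEq_iff_dvd.2 ⟨-v.snd, ?_⟩)
      linarith
    · rw [h7]
      exact ⟨fst_nonneg v, fst_lt hk v⟩
    · rw [h8, Int.mul_ediv_cancel_left _ hg']

/-- the ranges of the digits -/
theorem rng {k g x y b : ℤ} (hk : 2 ≤ k) (hg : k ^ 2 ≤ g) (hx0 : 0 ≤ x) (hx1 : x ≤ k ^ 2 - 1)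
    (hy0 : 0 ≤ y) (hy1 : y ≤ k ^ 2 - 1) (h : (k ^ 2 - 1) * b = x * g - y) :
    ((0 ≤ b ∧ b < g) ↔ (0 ≤ b + x ∧ b + x < g + (k ^ 2 - 1))) ∧ (1 ≤ b ↔ 1 ≤ b + x) := by
  have hM : 0 < k ^ 2 - 1 := by nlinarith
  have hpos : 1 ≤ x → 1 ≤ b := by
    intro hx
    by_contra hb
    have hb' : b ≤ 0 := by omega
    have h1 : (k ^ 2 - 1) * b ≤ 0 := mul_nonpos_of_nonneg_of_nonpos hM.le hb'
    have h2 : g ≤ x * g := by nlinarith
    linarith
  refine ⟨⟨fun h1 => ⟨by omega, by omega⟩, fun h1 => ⟨?_, ?_⟩⟩, ⟨fun h1 => by omega, fun h1 => ?_⟩⟩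
  · rcases eq_or_lt_of_le hx0 with hx | hx
    · omega
    · have := hpos hx
      omega
  · by_contra hb
    have hb' : g ≤ b := not_lt.1 hb
    have h2 : x < k ^ 2 - 1 := by omega
    have h3 : (k ^ 2 - 1) * g ≤ (k ^ 2 - 1) * b := mul_le_mul_of_nonneg_left hb' hM.le
    have h4 : x * g < (k ^ 2 - 1) * g := mul_lt_mul_of_pos_right h2 (by nlinarith)
    linarith
  · rcases eq_or_lt_of_le hx0 with hx | hx
    · omega
    · exact hpos hx

/-- the basic step -/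
theorem lab_step {g k : ℕ} (hk : 2 ≤ k) (hg : k ^ 2 ≤ g) (u v : Node k) (b a : ℤ) :
    LabelledEdge g k u v b a ↔ LabelledEdge (g + (k ^ 2 - 1)) k u v (b + (k * u.fst + v.snd))
      (a + (k * v.snd + u.fst)) := by
  have hk1 : 0 < k := by omega
  have hk2 : 1 ≤ k ^ 2 := Nat.one_le_pow _ _ hk1
  have hg1 : 0 < g := by omega
  rw [lab_iff hg1 hk1, lab_iff (by omega) hk1]
  have hc : ((g + (k ^ 2 - 1) : ℕ) : ℤ) = g + ((k : ℤ) ^ 2 - 1) := by
    push_cast [Nat.cast_sub hk2]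
    ring
  rw [hc]
  have hkz : (2 : ℤ) ≤ k := by exact_mod_cast hk
  have hgz : (k : ℤ) ^ 2 ≤ g := by exact_mod_cast hg
  have u0 := fst_nonneg u
  have u1 := snd_nonneg u
  have u2 := fst_lt hk1 u
  have u3 := snd_lt hk1 u
  have v0 := fst_nonneg v
  have v1 := snd_nonneg v
  have v2 := fst_lt hk1 v
  have v3 := snd_lt hk1 v
  generalize (k : ℤ) = K at *
  generalize (g : ℤ) = G at *
  have e1 : K * a + u.snd - b = G * v.snd ↔
      K * (a + (K * v.snd + u.fst)) + u.snd - (b + (K * u.fst + v.snd)) =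
        (G + (K ^ 2 - 1)) * v.snd := by
    constructor
    · intro h; linear_combination h
    · intro h; linear_combination h
  have e2 : a + u.fst * G - K * b = v.fst ↔
      a + (K * v.snd + u.fst) + u.fst * (G + (K ^ 2 - 1)) - K * (b + (K * u.fst + v.snd)) =
        v.fst := by
    constructor
    · intro h; linear_combination h
    · intro h; linear_combination h
  rw [← e1, ← e2]
  have main : K * a + u.snd - b = G * v.snd → a + u.fst * G - K * b = v.fst →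
      (((0 ≤ b ∧ b < G) ↔ (0 ≤ b + (K * u.fst + v.snd) ∧
        b + (K * u.fst + v.snd) < G + (K ^ 2 - 1))) ∧ (1 ≤ b ↔ 1 ≤ b + (K * u.fst + v.snd))) ∧
      (((0 ≤ a ∧ a < G) ↔ (0 ≤ a + (K * v.snd + u.fst) ∧
        a + (K * v.snd + u.fst) < G + (K ^ 2 - 1))) ∧ (1 ≤ a ↔ 1 ≤ a + (K * v.snd + u.fst))) := by
    intro h1 h2
    refine ⟨rng (y := K * v.fst + u.snd) hkz hgz (by nlinarith) (by nlinarith) (by nlinarith)
      (by nlinarith) ?_, rng (y := K * u.snd + v.fst) hkz hgz (by nlinarith) (by nlinarith)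
      (by nlinarith) (by nlinarith) ?_⟩
    · linear_combination h1 - K * h2
    · linear_combination K * h1 - h2
  constructor
  · rintro ⟨h1, h2, h3, h4, h5, h6⟩
    obtain ⟨⟨m1, m2⟩, m3, m4⟩ := main h5 h6
    exact ⟨m3.1 h1, m1.1 h2, fun h => ⟨m4.1 (h3 h).1, m2.1 (h3 h).2⟩, h4, h5, h6⟩
  · rintro ⟨h1, h2, h3, h4, h5, h6⟩
    obtain ⟨⟨m1, m2⟩, m3, m4⟩ := main h5 h6
    exact ⟨m3.2 h1, m1.2 h2, fun h => ⟨m4.2 (h3 h).1, m2.2 (h3 h).2⟩, h4, h5, h6⟩

/-- **Periodicity.** -/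
theorem edge_step {g k : ℕ} (hk : 2 ≤ k) (hg : k ^ 2 ≤ g) :
    Edge (g + (k ^ 2 - 1)) k = Edge g k := by
  funext u v
  refine propext ⟨?_, ?_⟩
  · rintro ⟨b, a, h⟩
    refine ⟨b - (k * u.fst + v.snd), a - (k * v.snd + u.fst), (lab_step hk hg u v _ _).2 ?_⟩
    rwa [sub_add_cancel, sub_add_cancel]
  · rintro ⟨b, a, h⟩
    exact ⟨_, _, (lab_step hk hg u v b a).1 h⟩

theorem edge_per {g k : ℕ} (hk : 2 ≤ k) (hg : k ^ 2 ≤ g) (m : ℕ) :
    Edge (g + m * (k ^ 2 - 1)) k = Edge g k := by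
  induction m with
  | zero => rw [Nat.zero_mul, Nat.add_zero]
  | succ m ih =>
    rw [← ih, Nat.add_mul, Nat.one_mul, ← Nat.add_assoc]
    exact edge_step hk (by omega)

end Pool.Agent.KS6_9.YG.Per
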