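import Mathlib
import Pool.Agent.KS6_9.YG.Per

/-!
# Descriptions of Young graphs by finite digraphs
-/

set_option autoImplicit false

namespace Pool.Agent.KS6_9.YG.Desc

open Relation
open Pool.Agent.Results.MP_5fcb94_co.YoungPivots

/-- the node with the entries exchanged -/
def swap {k : ℕ} : Node k → Node k
  | .start => .start
  | .ord a b => .ord b a

/-- `p` describes the Young graph of `(g,k)` by the digraph `T`; the list `D` contains the other
nodes of `H(g,k)`, from which no edge starts. -/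
structure Descr {n : ℕ} (T : Fin (n + 1) → List (Fin (n + 1))) (g k : ℕ) (p : Fin (n + 1) → Node k)
    (D : List (Node k)) : Prop where
  zero : p 0 = .start
  inj : Function.Injective p
  edge : ∀ i v, Edge g k (p i) v → (∃ j ∈ T i, v = p j) ∨ v ∈ D
  edge' : ∀ i, ∀ j ∈ T i, Edge g k (p i) (p j)
  dead : ∀ v ∈ D, v.fst ≠ v.snd ∧ (∀ i, v ≠ p i) ∧ ∀ w, ¬ Edge g k v w
  dead' : ∀ v ∈ D, ∀ i, swap (p i) ≠ v

/-- the combinatorial conditions on `T` -/
structure Good {n : ℕ} (T : Fin (n + 1) → List (Fin (n + 1))) : Prop where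
  pred : ∀ i, i ≠ 0 → ∃ j, j < i ∧ i ∈ T j
  succ : ∀ i, i ≠ Fin.last n → ∃ j, i < j ∧ j ∈ T i

theorem Good.reach {n : ℕ} {T : Fin (n + 1) → List (Fin (n + 1))} (h : Good T)
    (i : Fin (n + 1)) : ReflTransGen (fun a b => b ∈ T a) 0 i := by
  induction i using WellFoundedLT.induction with
  | _ i ih =>
    by_cases hi : i = 0
    · rw [hi]
    · obtain ⟨j, hj, hij⟩ := h.pred i hi
      exact (ih j hj).tail hij

theorem Good.reach' {n : ℕ} {T : Fin (n + 1) → List (Fin (n + 1))} (h : Good T)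
    (i : Fin (n + 1)) : ReflTransGen (fun a b => b ∈ T a) i (Fin.last n) := by
  induction i using WellFoundedGT.induction with
  | _ i ih =>
    by_cases hi : i = Fin.last n
    · rw [hi]
    · obtain ⟨j, hj, hij⟩ := h.succ i hi
      exact ReflTransGen.head hij (ih j hj)

namespace Descr

variable {n : ℕ} {T : Fin (n + 1) → List (Fin (n + 1))} {g k : ℕ} {p : Fin (n + 1) → Node k}
  {D : List (Node k)}

theorem lift_reach (h : Descr T g k p D) {i j : Fin (n + 1)}
    (hr : ReflTransGen (fun a b => b ∈ T a) i j) : ReflTransGen (Edge g k) (p i) (p j) := by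
  induction hr with
  | refl => exact ReflTransGen.refl
  | tail _ hb ih => exact ih.tail (h.edge' _ _ hb)

theorem inH (h : Descr T g k p D) (hT : Good T) (i : Fin (n + 1)) : InH g k (p i) := by
  have := h.lift_reach (hT.reach i)
  rwa [h.zero] at this

theorem inH_or (h : Descr T g k p D) {v : Node k} (hv : InH g k v) :
    (∃ i, v = p i) ∨ v ∈ D := by
  induction hv with
  | refl => exact Or.inl ⟨0, h.zero.symm⟩
  | tail _ hb ih =>
    rcases ih with ⟨i, rfl⟩ | hD
    · rcases h.edge i _ hb with ⟨j, -, hj⟩ | hD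
      · exact Or.inl ⟨j, hj⟩
      · exact Or.inr hD
    · exact absurd hb ((h.dead _ hD).2.2 _)

theorem fst_eq_of_even {v : Node k} (hv : EvenPivot g k v) : v.fst = v.snd := by
  obtain ⟨_, r, rfl⟩ := hv
  rfl

/-- a uniform description of the odd pivot nodes -/
theorem oddPivot_iff (v : Node k) : OddPivot g k v ↔ InH g k v ∧ v ≠ .start ∧
    Edge g k v (swap v) := by
  constructor
  · rintro ⟨h, ⟨r, rfl, hr⟩ | ⟨r', r, _, rfl, hr⟩⟩
    · exact ⟨h, by simp, hr⟩
    · exact ⟨h, by simp, hr⟩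
  · rintro ⟨h, h1, h2⟩
    cases v with
    | start => exact absurd rfl h1
    | ord a b =>
      refine ⟨h, ?_⟩
      by_cases hab : a = b
      · subst hab
        exact Or.inl ⟨a, rfl, h2⟩
      · exact Or.inr ⟨a, b, hab, rfl, h2⟩

theorem not_pivot (h : Descr T g k p D) {v : Node k} (hv : v ∈ D) : ¬ Pivot g k v := by
  rintro (h1 | h1)
  · exact (h.dead v hv).1 (fst_eq_of_even h1)
  · rw [oddPivot_iff] at h1
    exact (h.dead v hv).2.2 _ h1.2.2

/-- the nodes of the Young graph -/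
theorem young_iff (h : Descr T g k p D) (hT : Good T) (hpiv : Pivot g k (p (Fin.last n)))
    (v : Node k) : (InH g k v ∧ ∃ w, Pivot g k w ∧ ReflTransGen (Edge g k) v w) ↔
      ∃ i, v = p i := by
  constructor
  · rintro ⟨hv, w, hw, hvw⟩
    rcases h.inH_or hv with h1 | h1
    · exact h1
    · exfalso
      rcases ReflTransGen.cases_head hvw with h2 | ⟨c, hc, _⟩
      · subst h2
        exact h.not_pivot h1 hw
      · exact (h.dead v h1).2.2 _ hc
  · rintro ⟨i, rfl⟩
    exact ⟨h.inH hT i, _, hpiv, h.lift_reach (hT.reach' i)⟩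

/-- the digraph `T` is isomorphic to the underlying digraph of the Young graph -/
theorem iso (h : Descr T g k p D) (hT : Good T) (hpiv : Pivot g k (p (Fin.last n))) :
    Nonempty ((fun a b : Fin (n + 1) => b ∈ T a) ≃r YoungAdj g k) := by
  refine ⟨⟨Equiv.ofBijective (fun i => ⟨p i, (h.young_iff hT hpiv _).2 ⟨i, rfl⟩⟩) ⟨?_, ?_⟩, ?_⟩⟩
  · intro i j hij
    exact h.inj (congrArg Subtype.val hij)
  · rintro ⟨v, hv⟩
    obtain ⟨i, rfl⟩ := (h.young_iff hT hpiv v).1 hv
    exact ⟨i, rfl⟩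
  · intro a b
    change Edge g k (p a) (p b) ↔ b ∈ T a
    constructor
    · intro he
      rcases h.edge a _ he with ⟨j, hj, hb⟩ | hD
      · rw [h.inj hb]; exact hj
      · exact absurd rfl ((h.dead _ hD).2.1 b)
    · exact h.edge' a b

theorem even_iff (h : Descr T g k p D) (hT : Good T) (v : Node k) :
    EvenPivot g k v ↔ ∃ i, (p i ≠ .start ∧ (p i).fst = (p i).snd) ∧ p i = v := by
  constructor
  · intro hv
    rcases h.inH_or hv.1 with ⟨i, rfl⟩ | hD
    · refine ⟨i, ⟨?_, fst_eq_of_even hv⟩, rfl⟩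
      obtain ⟨_, r, hr⟩ := hv
      rw [hr]
      simp
    · exact absurd (Or.inl hv) (h.not_pivot hD)
  · rintro ⟨i, ⟨h1, h2⟩, rfl⟩
    refine ⟨h.inH hT i, ?_⟩
    generalize p i = w at h1 h2
    cases w with
    | start => exact absurd rfl h1
    | ord a b =>
      have h3 : a = b := Fin.ext (by
        have : ((a : ℕ) : ℤ) = ((b : ℕ) : ℤ) := h2
        exact_mod_cast this)
      exact ⟨a, by rw [h3]⟩

theorem odd_iff (h : Descr T g k p D) (hT : Good T) (v : Node k) :
    OddPivot g k v ↔ ∃ i, (p i ≠ .start ∧ ∃ j ∈ T i, p j = swap (p i)) ∧ p i = v := by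
  constructor
  · intro hv
    rcases h.inH_or hv.1 with ⟨i, rfl⟩ | hD
    · rw [oddPivot_iff] at hv
      refine ⟨i, ⟨hv.2.1, ?_⟩, rfl⟩
      rcases h.edge i _ hv.2.2 with ⟨j, hj, hb⟩ | hD
      · exact ⟨j, hj, hb.symm⟩
      · exact absurd rfl (h.dead' _ hD i)
    · exact absurd (Or.inr hv) (h.not_pivot hD)
  · rintro ⟨i, ⟨h1, j, hj, h2⟩, rfl⟩
    rw [oddPivot_iff]
    refine ⟨h.inH hT i, h1, ?_⟩
    rw [← h2]
    exact h.edge' i j hj

open Classical in
/-- counting nodes through the indices -/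
theorem card_of {P : Node k → Prop} {c : Fin (n + 1) → Prop} [DecidablePred c]
    (hp : Function.Injective p) (h : ∀ v, P v ↔ ∃ i, c i ∧ p i = v) :
    Nat.card {v // P v} = (Finset.univ.filter c).card := by
  have e : {i // c i} ≃ {v // P v} := Equiv.ofBijective
    (fun i => ⟨p i.1, (h _).2 ⟨i.1, i.2, rfl⟩⟩) ⟨fun i j hij => Subtype.ext (hp
      (congrArg Subtype.val hij)), fun ⟨v, hv⟩ => by
        obtain ⟨i, hi, rfl⟩ := (h v).1 hv
        exact ⟨⟨i, hi⟩, rfl⟩⟩
  rw [← Nat.card_congr e, Nat.card_eq_fintype_card, Fintype.card_subtype]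

/-- transport along the periodicity -/
theorem per (h : Descr T g k p D) (hk : 2 ≤ k) (hg : k ^ 2 ≤ g) (m : ℕ) :
    Descr T (g + m * (k ^ 2 - 1)) k p D := by
  have h1 := Per.edge_per hk hg m
  refine ⟨h.zero, h.inj, ?_, ?_, ?_, h.dead'⟩
  · rw [h1]; exact h.edge
  · rw [h1]; exact h.edge'
  · rw [h1]; exact h.dead

/-- the computable conditions -/
theorem of_check (hg : 0 < g) (hk : 0 < k)
    (h0 : p 0 = .start) (hi : ∀ i j, code (p i) = code (p j) → i = j)
    (h1 : ∀ i, ∀ q ∈ succN g k (p i), (∃ j ∈ T i, code (p j) = some q) ∨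
      ∃ v ∈ D, code v = some q)
    (h2 : ∀ i, ∀ j ∈ T i, ∃ q ∈ succN g k (p i), code (p j) = some q)
    (h3 : ∀ v ∈ D, v.fst ≠ v.snd ∧ (∀ i, v ≠ p i) ∧ (∀ i, swap (p i) ≠ v) ∧ succN g k v = []) :
    Descr T g k p D := by
  refine ⟨h0, fun i j h => hi i j (congrArg code h), fun i v hv => ?_, fun i j hj => ?_,
    fun v hv => ⟨(h3 v hv).1, (h3 v hv).2.1, fun w hw => ?_⟩, fun v hv => (h3 v hv).2.2.1⟩
  · rw [edge_iff hg hk] at hv
    obtain ⟨q, hq, hv⟩ := hv
    rcases h1 i q hq with ⟨j, hj, hjq⟩ | ⟨w, hw, hwq⟩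
    · exact Or.inl ⟨j, hj, code_inj (by rw [hv, hjq])⟩
    · rw [code_inj (hv.trans hwq.symm)]
      exact Or.inr hw
  · rw [edge_iff hg hk]
    exact h2 i j hj
  · rw [edge_iff hg hk, (h3 v hv).2.2.2] at hw
    obtain ⟨q, hq, _⟩ := hw
    exact absurd hq List.not_mem_nil

end Descr

/-- the pivot nodes belong to the Young graph, so their numbers are invariants -/
theorem card_eq {g k g' k' : ℕ} (h : YoungIso g k g' k') :
    Nat.card {v : Node k // EvenPivot g k v} = Nat.card {v : Node k' // EvenPivot g' k' v} ∧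
    Nat.card {v : Node k // OddPivot g k v} = Nat.card {v : Node k' // OddPivot g' k' v} := by
  obtain ⟨e, he, ho⟩ := h
  have key : ∀ (P : Node k → Prop) (P' : Node k' → Prop), (∀ v, P v → Pivot g k v) →
      (∀ v, P' v → Pivot g' k' v) → (∀ v, P v → InH g k v) → (∀ v, P' v → InH g' k' v) →
      (∀ v : YoungNode g k, P v.1 ↔ P' (e v).1) →
      Nat.card {v // P v} = Nat.card {v // P' v} := by
    intro P P' h1 h1' h2 h2' h3
    have f1 : {v : YoungNode g k // P v.1} ≃ {v // P v} :=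
      { toFun := fun v => ⟨v.1.1, v.2⟩
        invFun := fun v => ⟨⟨v.1, h2 _ v.2, v.1, h1 _ v.2, ReflTransGen.refl⟩, v.2⟩
        left_inv := fun v => rfl
        right_inv := fun v => rfl }
    have f2 : {v : YoungNode g' k' // P' v.1} ≃ {v // P' v} :=
      { toFun := fun v => ⟨v.1.1, v.2⟩
        invFun := fun v => ⟨⟨v.1, h2' _ v.2, v.1, h1' _ v.2, ReflTransGen.refl⟩, v.2⟩
        left_inv := fun v => rfl
        right_inv := fun v => rfl }
    exact Nat.card_congr (f1.symm.trans ((e.toEquiv.subtypeEquiv h3).trans f2))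
  exact ⟨key _ _ (fun v h => Or.inl h) (fun v h => Or.inl h) (fun v h => h.1) (fun v h => h.1) he,
    key _ _ (fun v h => Or.inr h) (fun v h => Or.inr h) (fun v h => h.1) (fun v h => h.1) ho⟩

end Pool.Agent.KS6_9.YG.Desc
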