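import Mathlib
import Pool.Agent.KS6_9.YG.Desc

/-!
# Four Young graphs
-/

set_option autoImplicit false

namespace Pool.Agent.KS6_9.YG.Data

open Relation
open Pool.Agent.Results.MP_5fcb94_co.YoungPivots
open Pool.Agent.KS6_9.YG.Desc

/-- two parallel paths with five interior nodes -/
def TA : Fin 14 → List (Fin 14) :=
  ![[1], [2, 3], [4], [5], [6], [7], [8], [9], [10], [11], [12], [12], [13, 1], [13, 1]]

/-- two parallel paths with six interior nodes -/
def TB : Fin 16 → List (Fin 16) :=
  ![[1], [2, 3], [4], [5], [6], [7], [8], [9], [10], [11], [12], [13], [14], [14], [15, 1],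
    [15, 1]]

theorem goodA : Good (n := 13) TA := by
  constructor
  · decide
  · decide

theorem goodB : Good (n := 15) TB := by
  constructor
  · decide
  · decide

def pA1 : Fin 14 → Node 27 :=
  ![.start, .ord 6 22, .ord 13 1, .ord 19 23, .ord 5 9, .ord 18 10, .ord 26 2, .ord 2 26,
    .ord 10 18, .ord 9 5, .ord 23 19, .ord 1 13, .ord 22 6, .ord 0 0]

def pA2 : Fin 14 → Node 71 :=
  ![.start, .ord 27 59, .ord 23 7, .ord 50 66, .ord 16 48, .ord 39 55, .ord 30 30, .ord 19 19,
    .ord 48 16, .ord 55 39, .ord 7 23, .ord 66 50, .ord 59 27, .ord 0 0]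

def pB1 : Fin 16 → Node 23 :=
  ![.start, .ord 6 21, .ord 9 0, .ord 15 21, .ord 10 4, .ord 19 4, .ord 2 11, .ord 12 15,
    .ord 15 12, .ord 11 2, .ord 4 19, .ord 4 10, .ord 21 15, .ord 0 9, .ord 21 6, .ord 0 0]

def pB2 : Fin 16 → Node 51 :=
  ![.start, .ord 19 41, .ord 11 9, .ord 30 50, .ord 13 47, .ord 5 15, .ord 21 39, .ord 4 36,
    .ord 39 21, .ord 36 4, .ord 47 13, .ord 15 5, .ord 9 11, .ord 50 30, .ord 41 19, .ord 0 0]

theorem dA1 : Descr (n := 13) TA 967 27 pA1 [] := by
  refine Descr.of_check (by decide) (by decide) rfl ?_ ?_ ?_ ?_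
  · decide +kernel
  · decide +kernel
  · decide +kernel
  · decide

theorem dA2 : Descr (n := 13) TA 6183 71 pA2 [] := by
  refine Descr.of_check (by decide) (by decide) rfl ?_ ?_ ?_ ?_
  · decide +kernel
  · decide +kernel
  · decide +kernel
  · decide

theorem dB1 : Descr (n := 15) TB 962 23 pB1 [] := by
  refine Descr.of_check (by decide) (by decide) rfl ?_ ?_ ?_ ?_
  · decide +kernel
  · decide +kernel
  · decide +kernel
  · decide

theorem dB2 : Descr (n := 15) TB 4209 51 pB2 [.ord 34 46] := by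
  refine Descr.of_check (by decide) (by decide) rfl ?_ ?_ ?_ ?_
  · decide +kernel
  · decide +kernel
  · decide +kernel
  · decide +kernel

end Pool.Agent.KS6_9.YG.Data
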